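import Pool.Agent.Work.MP_91103f_lv_helper19.HWH

/-! block HWC: cutting a walk at its last lowest point -/

namespace Pool.TriLev.helper19

open Pool.Agent.Work.MP_91103f_co Pool.TriLev

theorem adj_sub (q p r : ℤ × ℤ) (h : T6.Adj p r) : T6.Adj (p - q) (r - q) := by
  rw [adj_iff] at h ⊢
  simp only [Prod.fst_sub, Prod.snd_sub]
  omega

/-- the last point of minimal height -/
theorem exists_min (L : List (ℤ × ℤ)) (hL : L ≠ []) :
    ∃ A q B, L = A ++ q :: B ∧ (∀ p ∈ A, q.2 ≤ p.2) ∧ ∀ p ∈ B, q.2 < p.2 := by
  induction L with
  | nil => exact absurd rfl hL
  | cons x L ih =>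
    rcases eq_or_ne L [] with rfl | hL'
    · exact ⟨[], x, [], rfl, by simp, by simp⟩
    · obtain ⟨A, q, B, rfl, h2, h3⟩ := ih hL'
      by_cases hx : q.2 ≤ x.2
      · refine ⟨x :: A, q, B, rfl, ?_, h3⟩
        intro p hp
        rcases List.mem_cons.1 hp with rfl | hp
        · exact hx
        · exact h2 p hp
      · refine ⟨[], x, A ++ q :: B, rfl, by simp, ?_⟩
        intro p hp
        push Not at hx
        rcases List.mem_append.1 hp with hp | hp
        · exact lt_of_lt_of_le hx (h2 p hp)
        · rcases List.mem_cons.1 hp with rfl | hp
          · exact hx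
          · exact lt_trans hx (h3 p hp)

theorem stmt_HWC : Stmt_HWC := by
  classical
  intro n
  -- a walk is determined by the reversed first part and the second part
  have hsub : PL T6 (0, 0) n ⊆ ⋃ m ∈ Finset.range (n + 1),
      (fun x : List (ℤ × ℤ) × List (ℤ × ℤ) =>
        let f : List (ℤ × ℤ) := x.1.reverse.map (fun p => p - x.1.getLastD (0, 0))
        (f ++ x.2.map (fun p => p + f.getLastD (0, 0))).tail) ''
        (HS (m + 1) ×ˢ HS (n - m)) := by
    rintro L ⟨hc, hnd, hlen⟩
    obtain ⟨A, q, B, hL, hA, hB⟩ := exists_min ((0, 0) :: L) (by simp)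
    rw [hL] at hc hnd
    have hlen' : A.length + B.length = n := by
      have := congrArg List.length hL
      simp only [List.length_append, List.length_cons] at this
      omega
    rw [Set.mem_iUnion₂]
    refine ⟨A.length, ?_, ((A ++ [q]).reverse.map fun p => p - (q.1, q.2 - 1),
      B.map fun p => p - q), ⟨?_, ?_⟩, ?_⟩
    · rw [Finset.mem_range]; omega
    · refine ⟨⟨?_, ?_, ?_⟩, ?_⟩
      · have h1 : A ++ q :: B = (A ++ [q]) ++ B := by simp
        rw [h1] at hc
        have h2 := hc.left_of_append
        have h3 : List.IsChain T6.Adj ((A ++ [q]).reverse.map fun p => p - (q.1, q.2 - 1)) := by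
          rw [List.isChain_map, List.isChain_reverse]
          refine h2.imp ?_
          intro a b hab
          exact adj_sub _ _ _ hab.symm
        rw [List.isChain_cons]
        refine ⟨?_, h3⟩
        intro y hy
        simp only [List.reverse_append, List.reverse_cons, List.reverse_nil, List.nil_append,
          List.singleton_append, List.map_cons, List.head?_cons, Option.mem_def,
          Option.some.injEq] at hy
        subst hy
        rw [adj_iff]
        simp only [Prod.fst_sub, Prod.snd_sub]
        omega
      · rw [List.nodup_cons]
        constructor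
        · intro h0
          rw [List.mem_map] at h0
          obtain ⟨p, hp, hp0⟩ := h0
          rw [List.mem_reverse, List.mem_append] at hp
          have h1 : q.2 ≤ p.2 := by
            rcases hp with hp | hp
            · exact hA p hp
            · rw [List.mem_singleton.1 hp]
          have h2 := congrArg Prod.snd hp0
          simp only [Prod.snd_sub] at h2
          omega
        · have h1 : A ++ q :: B = (A ++ [q]) ++ B := by simp
          rw [h1] at hnd
          have h2 := hnd.of_append_left
          refine (List.nodup_reverse.2 h2).map ?_
          intro a b hab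
          exact sub_left_injective hab
      · simp
      · intro p hp
        rw [List.mem_map] at hp
        obtain ⟨p', hp', rfl⟩ := hp
        rw [List.mem_reverse, List.mem_append] at hp'
        have h1 : q.2 ≤ p'.2 := by
          rcases hp' with hp' | hp'
          · exact hA p' hp'
          · rw [List.mem_singleton.1 hp']
        simp only [Prod.snd_sub]
        omega
    · refine ⟨⟨?_, ?_, ?_⟩, ?_⟩
      · have h2 := hc.right_of_append
        have h3 : ((0, 0) : ℤ × ℤ) :: B.map (fun p => p - q) = (q :: B).map (fun p => p - q) := by
          simp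
        rw [h3, List.isChain_map]
        exact h2.imp fun {a b} hab => adj_sub _ _ _ hab
      · have h2 := hnd.of_append_right
        have h3 : ((0, 0) : ℤ × ℤ) :: B.map (fun p => p - q) = (q :: B).map (fun p => p - q) := by
          simp
        rw [h3]
        refine h2.map ?_
        intro a b hab
        exact sub_left_injective hab
      · simp only [List.length_map]; omega
      · intro p hp
        rw [List.mem_map] at hp
        obtain ⟨p', hp', rfl⟩ := hp
        have := hB p' hp'
        simp only [Prod.snd_sub]
        omega
    · -- reconstruction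
      have hhead : ∃ A', A ++ [q] = (0, 0) :: A' := by
        cases A with
        | nil =>
          simp only [List.nil_append, List.cons.injEq] at hL
          exact ⟨[], by rw [List.nil_append, hL.1]⟩
        | cons x A =>
          simp only [List.cons_append, List.cons.injEq] at hL
          exact ⟨A ++ [q], by rw [← hL.1]; rfl⟩
      obtain ⟨A', hA'⟩ := hhead
      have hlast : ((A ++ [q]).reverse.map fun p => p - (q.1, q.2 - 1)).getLastD (0, 0)
          = (0, 0) - (q.1, q.2 - 1) := by
        rw [hA']
        simp
      have hf : (((A ++ [q]).reverse.map fun p => p - (q.1, q.2 - 1)).reverse.map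
          (fun p => p - ((A ++ [q]).reverse.map fun p => p - (q.1, q.2 - 1)).getLastD (0, 0)))
          = A ++ [q] := by
        rw [hlast, ← List.map_reverse, List.reverse_reverse, List.map_map]
        rw [List.map_congr_left (g := id)]
        · simp
        · rintro ⟨a, b⟩ _
          simp only [Function.comp, id, Prod.mk_sub_mk, Prod.mk.injEq]
          omega
      simp only [hf]
      have h1 : (A ++ [q]).getLastD (0, 0) = q := by simp
      rw [h1, List.map_map]
      have h2 : B.map ((fun p => p + q) ∘ fun p => p - q) = B := by
        rw [List.map_congr_left (g := id)]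
        · simp
        · intro p _
          simp
      rw [h2]
      have h3 : A ++ [q] ++ B = (0, 0) :: L := by rw [hL]; simp
      rw [h3]
      rfl
  have hfinU : (⋃ m ∈ Finset.range (n + 1),
      (fun x : List (ℤ × ℤ) × List (ℤ × ℤ) =>
        let f : List (ℤ × ℤ) := x.1.reverse.map (fun p => p - x.1.getLastD (0, 0))
        (f ++ x.2.map (fun p => p + f.getLastD (0, 0))).tail) ''
        (HS (m + 1) ×ˢ HS (n - m))).Finite := by
    apply Set.Finite.biUnion (Finset.finite_toSet _)
    intro m _
    exact ((finHS _).prod (finHS _)).image _
  unfold c6
  refine le_trans (Set.ncard_le_ncard hsub hfinU) ?_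
  have key : ∀ s : Finset ℕ, (⋃ m ∈ s,
      (fun x : List (ℤ × ℤ) × List (ℤ × ℤ) =>
        let f : List (ℤ × ℤ) := x.1.reverse.map (fun p => p - x.1.getLastD (0, 0))
        (f ++ x.2.map (fun p => p + f.getLastD (0, 0))).tail) ''
        (HS (m + 1) ×ˢ HS (n - m))).ncard
      ≤ ∑ m ∈ s, (HS (m + 1)).ncard * (HS (n - m)).ncard := by
    intro s
    induction s using Finset.induction_on with
    | empty => simp
    | insert m s hm ih =>
      rw [Finset.set_biUnion_insert, Finset.sum_insert hm]
      refine le_trans (Set.ncard_union_le _ _) (Nat.add_le_add ?_ ih)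
      refine le_trans (Set.ncard_image_le ((finHS _).prod (finHS _))) ?_
      rw [Set.ncard_prod]
  exact key _

end Pool.TriLev.helper19
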