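import Pool.Agent.Work.MP_91103f_lv.Interface

/-! block HWH: peeling the highest row from half-space walks -/

namespace Pool.TriLev.helper19

open Pool.Agent.Work.MP_91103f_co Pool.TriLev

theorem adj_iff (p r : ℤ × ℤ) : T6.Adj p r ↔
    (r.1 - p.1 = 1 ∧ r.2 - p.2 = 0) ∨ (r.1 - p.1 = 0 ∧ r.2 - p.2 = 1) ∨
    (r.1 - p.1 = -1 ∧ r.2 - p.2 = 1) ∨ (r.1 - p.1 = -1 ∧ r.2 - p.2 = 0) ∨
    (r.1 - p.1 = 0 ∧ r.2 - p.2 = -1) ∨ (r.1 - p.1 = 1 ∧ r.2 - p.2 = -1) := by
  obtain ⟨a, b⟩ := p
  obtain ⟨c, d⟩ := r
  simp only [T6, SimpleGraph.fromRel_adj, ne_eq, Prod.mk.injEq, Set.mem_insert_iff,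
    Set.mem_singleton_iff]
  omega

theorem fin6 (p : ℤ × ℤ) : (T6.neighborSet p).Finite := by
  apply (Set.toFinite ({(p.1 + 1, p.2), (p.1, p.2 + 1), (p.1 - 1, p.2 + 1), (p.1 - 1, p.2),
    (p.1, p.2 - 1), (p.1 + 1, p.2 - 1)} : Set (ℤ × ℤ))).subset
  intro r hr
  rw [SimpleGraph.mem_neighborSet, adj_iff] at hr
  obtain ⟨a, b⟩ := p
  obtain ⟨c, d⟩ := r
  simp only [Set.mem_insert_iff, Set.mem_singleton_iff, Prod.mk.injEq]
  simp only at hr
  omega

theorem finHSk (k n : ℕ) : (HSk k n).Finite :=
  (finite_PL fin6 n (0, 0)).subset fun _ h => h.1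

theorem finBRk (k n : ℕ) : (BRk k n).Finite :=
  (finite_PL fin6 n (0, 0)).subset fun _ h => h.1

theorem finHS (n : ℕ) : (HS n).Finite :=
  (finite_PL fin6 n (0, 0)).subset fun _ h => h.1

/-- last occurrence -/
theorem exists_last {α : Type} (P : α → Prop) (L : List α) (h : ∃ p ∈ L, P p) :
    ∃ A q B, L = A ++ q :: B ∧ P q ∧ ∀ p ∈ B, ¬ P p := by
  induction L with
  | nil => simp at h
  | cons x L ih =>
    by_cases h' : ∃ p ∈ L, P p
    · obtain ⟨A, q, B, h1, h2, h3⟩ := ih h'
      exact ⟨x :: A, q, B, by rw [h1]; rfl, h2, h3⟩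
    · push Not at h'
      obtain ⟨p, hp, hpP⟩ := h
      rcases List.mem_cons.1 hp with rfl | hp
      · exact ⟨[], p, L, rfl, hpP, h'⟩
      · exact absurd hpP (h' p hp)

/-- the reflection -/
def sg (p : ℤ × ℤ) : ℤ × ℤ := (p.1 + p.2, -p.2)

theorem stmt_HWH : Stmt_HWH := by
  classical
  intro k n
  have hsub : HSk (k + 1) n ⊆ HSk k n ∪ ⋃ m ∈ Finset.Icc 1 n,
      (fun x : List (ℤ × ℤ) × List (ℤ × ℤ) =>
        x.1 ++ x.2.map (fun p => x.1.getLastD (0, 0) + sg p)) ''
        (BRk (k + 1) m ×ˢ HSk k (n - m)) := by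
    rintro L ⟨⟨hc, hnd, hlen⟩, hrow⟩
    by_cases hex : ∃ p ∈ L, p.2 = (k : ℤ) + 1
    · right
      obtain ⟨A, q, B, rfl, hq, hB⟩ := exists_last _ L hex
      rw [Set.mem_iUnion₂]
      refine ⟨A.length + 1, ?_, (A ++ [q], B.map fun p => sg (p - q)), ⟨?_, ?_⟩, ?_⟩
      · rw [Finset.mem_Icc]
        simp only [List.length_append, List.length_cons] at hlen
        omega
      · refine ⟨⟨?_, ?_, ?_⟩, ?_, ?_⟩
        · have : (0, 0) :: (A ++ q :: B) = ((0, 0) :: (A ++ [q])) ++ B := by simp
          rw [this] at hc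
          exact hc.left_of_append
        · have : (0, 0) :: (A ++ q :: B) = ((0, 0) :: (A ++ [q])) ++ B := by simp
          rw [this] at hnd
          exact hnd.of_append_left
        · simp
        · intro p hp
          have h1 := hrow p (by
            simp only [List.mem_append, List.mem_cons, List.not_mem_nil, or_false] at hp ⊢
            tauto)
          push_cast at h1 ⊢
          exact h1
        · simp only [List.getLastD_concat]
          push_cast
          exact hq
      · refine ⟨⟨?_, ?_, ?_⟩, ?_⟩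
        · have h1 : (0, 0) :: (A ++ q :: B) = ((0, 0) :: A) ++ (q :: B) := by simp
          rw [h1] at hc
          have h2 := hc.right_of_append
          have h3 : ((0, 0) : ℤ × ℤ) :: B.map (fun p => sg (p - q))
              = (q :: B).map (fun p => sg (p - q)) := by
            simp [sg]
          rw [h3, List.isChain_map]
          refine h2.imp ?_
          intro a b hab
          rw [adj_iff] at hab ⊢
          simp only [sg, Prod.fst_sub, Prod.snd_sub]
          omega
        · have h1 : (0, 0) :: (A ++ q :: B) = ((0, 0) :: A) ++ (q :: B) := by simp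
          rw [h1] at hnd
          have h2 := hnd.of_append_right
          have h3 : ((0, 0) : ℤ × ℤ) :: B.map (fun p => sg (p - q))
              = (q :: B).map (fun p => sg (p - q)) := by
            simp [sg]
          rw [h3]
          refine h2.map ?_
          rintro ⟨a, b⟩ ⟨c, d⟩ hab
          obtain ⟨e, f⟩ := q
          simp only [sg, Prod.mk_sub_mk, Prod.mk.injEq] at hab ⊢
          omega
        · simp only [List.length_map]
          simp only [List.length_append, List.length_cons] at hlen
          omega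
        · intro p hp
          rw [List.mem_map] at hp
          obtain ⟨p', hp', rfl⟩ := hp
          have h1 := hrow p' (by simp [hp'])
          have h2 := hB p' hp'
          simp only [sg, Prod.snd_sub, hq]
          push_cast at h1
          omega
      · simp only [List.map_map]
        have h1 : (A ++ [q]).getLastD (0, 0) = q := by simp
        rw [h1]
        have h2 : (B.map ((fun p => q + sg p) ∘ fun p => sg (p - q))) = B := by
          rw [List.map_congr_left (g := id)]
          · simp
          · rintro ⟨a, b⟩ _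
            obtain ⟨e, f⟩ := q
            simp only [Function.comp, sg, id, Prod.mk_sub_mk, Prod.mk_add_mk, Prod.mk.injEq]
            omega
        rw [h2]
        simp
    · left
      push Not at hex
      refine ⟨⟨hc, hnd, hlen⟩, ?_⟩
      intro p hp
      have h1 := hrow p hp
      have h2 := hex p hp
      push_cast at h1
      omega
  have hfinU : (⋃ m ∈ Finset.Icc 1 n,
      (fun x : List (ℤ × ℤ) × List (ℤ × ℤ) =>
        x.1 ++ x.2.map (fun p => x.1.getLastD (0, 0) + sg p)) ''
        (BRk (k + 1) m ×ˢ HSk k (n - m))).Finite := by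
    apply Set.Finite.biUnion (Finset.finite_toSet _)
    intro m _
    exact ((finBRk _ _).prod (finHSk _ _)).image _
  refine le_trans (Set.ncard_le_ncard hsub ((finHSk k n).union hfinU)) ?_
  refine le_trans (Set.ncard_union_le _ _) (Nat.add_le_add_left ?_ _)
  have key : ∀ s : Finset ℕ, (⋃ m ∈ s,
      (fun x : List (ℤ × ℤ) × List (ℤ × ℤ) =>
        x.1 ++ x.2.map (fun p => x.1.getLastD (0, 0) + sg p)) ''
        (BRk (k + 1) m ×ˢ HSk k (n - m))).ncard
      ≤ ∑ m ∈ s, (BRk (k + 1) m).ncard * (HSk k (n - m)).ncard := by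
    intro s
    induction s using Finset.induction_on with
    | empty => simp
    | insert m s hm ih =>
      rw [Finset.set_biUnion_insert, Finset.sum_insert hm]
      refine le_trans (Set.ncard_union_le _ _) (Nat.add_le_add ?_ ih)
      refine le_trans (Set.ncard_image_le ((finBRk _ _).prod (finHSk _ _))) ?_
      rw [Set.ncard_prod]
  exact key _

end Pool.TriLev.helper19
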