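import Pool.Agent.Work.MP_91103f_lv.Interface

/-!
# MP_91103f_co: block LS
-/

namespace Pool.TriLev.helper19

open Pool.Agent.Work.MP_91103f_co Pool.TriLev

open Classical

theorem T3.adj'' {V : Type} {G : SimpleGraph V} {F : Set (Finset V)} (hT : Tri V G F) {u v w : V}
    (h : T3 F u v w) : G.Adj v w := hT.adj (h.swap.swap')

theorem stmt_LS (hLV : Stmt_LV) (_hLH : Stmt_LH) (hLINK : Stmt_LINK) (hNCH : Stmt_NCH)
    (hUPF : Stmt_UPF) (hCYC : Stmt_CYC) : Stmt_LS := by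
  intro V G F hT r
  have lk : ∀ x, x ≠ r → ∃ (a b : V) (u : ℕ), T3 F x a b ∧ 2 ≤ u ∧
      ((G.neighborSet x).ncard = u + 3 ∨ (G.neighborSet x).ncard = u + 4) ∧
      G.dist r a = G.dist r x ∧
      (∀ i, 1 ≤ i → i ≤ u → Ch G r x (z F x a b i)) ∧
      G.dist r (z F x a b (u + 1)) = G.dist r x ∧
      nch G r x = u ∧
      (∀ c, Ch G r x c → ∃ i, 1 ≤ i ∧ i ≤ u ∧ c = z F x a b i) ∧
      (∀ c, Ch G r c x → ∃ i, u + 2 ≤ i ∧ i < (G.neighborSet x).ncard ∧ c = z F x a b i) ∧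
      ((∃ p, ∀ q, Ch G r q x → q = p) ↔ (G.neighborSet x).ncard = u + 3) := by
    intro x hx
    obtain ⟨a, b, u, h1, h2, h3, h4, h5, h6, h7⟩ := hLINK hT r x hx
    obtain ⟨k1, k2, k3, k4, k5⟩ := hNCH hT r x a b u hx h1 h2 h3 h4 h5 h6 h7
    exact ⟨a, b, u, h1, h2, h3, h4, h5, h6, k1, k2, k3, k5⟩
  have hne : ∀ x a, Ch G r a x → x ≠ r := by
    rintro x a ⟨-, h2⟩ rfl
    rw [SimpleGraph.dist_self] at h2
    omega
  refine
    { conn := hT.conn
      fin := fun x => (hT.deg x).1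
      par2 := ?_
      parAdj := ?_
      uniq := ?_
      sib := ?_
      two := ?_
      adjCh := ?_
      chAdj := ?_
      shr := ?_
      three := ?_
      one := ?_
      deg7 := ?_
      cyc := fun m x h1 h2 h3 h4 h5 h6 => hCYC hT r m x h1 h2 h3 h4 h5 h6 }
  · -- par2
    intro x a b c ha hb hc
    obtain ⟨a0, b0, u, h1, h2, h3, h4, h5, h6, k1, k2, k3, k5⟩ := lk x (hne x a ha)
    obtain ⟨i, hi1, hi2, hi⟩ := k3 a ha
    obtain ⟨j, hj1, hj2, hj⟩ := k3 b hb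
    obtain ⟨k, hk1, hk2, hk⟩ := k3 c hc
    have : i = j ∨ i = k ∨ j = k := by omega
    rcases this with rfl | rfl | rfl
    · left; rw [hi, hj]
    · right; left; rw [hi, hk]
    · right; right; rw [hj, hk]
  · -- parAdj
    intro x a b ha hb hab
    exact T3.adj'' hT (hLV hT r x a b ha hb hab)
  · -- uniq
    intro x x' c c' hxx' h1 h2 h3 h4
    have hadj : G.Adj x x' := T3.adj'' hT (hLV hT r c x x' h1 h2 hxx')
    have hd : G.dist r x = G.dist r x' := by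
      have := h1.2; have := h2.2; omega
    obtain ⟨c0, -, -, -, hu⟩ := hUPF hT r x x' hadj hd
    rw [hu c h1 h2, hu c' h3 h4]
  · -- sib
    intro x x' hadj hd
    obtain ⟨c, h1, h2, -, -⟩ := hUPF hT r x x' hadj hd
    exact ⟨c, h1, h2⟩
  · -- two
    intro x hx
    obtain ⟨a0, b0, u, h1, h2, h3, h4, h5, h6, k1, k2, k3, k5⟩ := lk x hx
    omega
  · -- adjCh
    intro x hx
    obtain ⟨a0, b0, u, h1, h2, h3, h4, h5, h6, k1, k2, k3, k5⟩ := lk x hx
    exact ⟨z F x a0 b0 1, z F x a0 b0 2, hT.z_ne1 h1 1, h5 1 le_rfl (by omega),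
      h5 2 (by omega) (by omega), T3.adj'' hT (hT.z_face h1 1)⟩
  · -- chAdj
    intro x c c' hx hn hc hc' hcc
    obtain ⟨a0, b0, u, h1, h2, h3, h4, h5, h6, k1, k2, k3, k5⟩ := lk x hx
    obtain ⟨i, hi1, hi2, hi⟩ := k2 c hc
    obtain ⟨j, hj1, hj2, hj⟩ := k2 c' hc'
    have hu : u = 2 := by omega
    subst hu
    have hadj : G.Adj (z F x a0 b0 1) (z F x a0 b0 2) := T3.adj'' hT (hT.z_face h1 1)
    have hij : (i = 1 ∧ j = 2) ∨ (i = 2 ∧ j = 1) ∨ i = j := by omega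
    rcases hij with ⟨rfl, rfl⟩ | ⟨rfl, rfl⟩ | rfl
    · rw [hi, hj]; exact hadj
    · rw [hi, hj]; exact hadj.symm
    · exact absurd (by rw [hi, hj]) hcc
  · -- shr
    intro x c hx hn hc
    obtain ⟨a0, b0, u, h1, h2, h3, h4, h5, h6, k1, k2, k3, k5⟩ := lk x hx
    obtain ⟨i, hi1, hi2, hi⟩ := k2 c hc
    have hu : u = 2 := by omega
    subst hu
    have hi' : i = 1 ∨ i = 2 := by omega
    rcases hi' with rfl | rfl
    · refine ⟨a0, (hT.adj h1).ne', ?_, ?_⟩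
      · rw [hi]
        exact T3.adj'' hT (hT.z_face h1 0)
      · rw [h4]; exact hc.2
    · refine ⟨z F x a0 b0 3, (hT.z_adj h1 3).ne', ?_, ?_⟩
      · rw [hi]
        exact (T3.adj'' hT (hT.z_face h1 2)).symm
      · rw [h6]; exact hc.2
  · -- three
    intro x hx hn
    obtain ⟨a0, b0, u, h1, h2, h3, h4, h5, h6, k1, k2, k3, k5⟩ := lk x hx
    refine ⟨z F x a0 b0 2, h5 2 (by omega) (by omega), ?_⟩
    intro p hp
    by_contra hpx
    have hc2 := h5 2 (by omega) (by omega)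
    have ht : T3 F (z F x a0 b0 2) x p := hLV hT r _ x p hc2 hp (fun h => hpx h.symm)
    have e1 := hc2.2
    have e2 := hp.2
    rcases hT.z_nb h1 1 ht.swap with hp1 | hp3
    · have e3 := (h5 1 le_rfl (by omega)).2
      rw [← hp1] at e3
      omega
    · have e3 := (h5 3 (by omega) (by omega)).2
      rw [show (1 : ℕ) + 2 = 3 by norm_num] at hp3
      rw [← hp3] at e3
      omega
  · -- one
    intro x p hx hp
    obtain ⟨a0, b0, u, h1, h2, h3, h4, h5, h6, k1, k2, k3, k5⟩ := lk x hx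
    have := k5.1 ⟨p, hp⟩
    have := (hT.deg x).2
    omega
  · -- deg7
    intro x hx hn hd
    obtain ⟨a0, b0, u, h1, h2, h3, h4, h5, h6, k1, k2, k3, k5⟩ := lk x hx
    apply k5.2
    omega

end Pool.TriLev.helper19
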