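import Pool.Agent.Work.MP_91103f_lv.Interface

/-! block ROUTE -/

namespace Pool.TriLev.helper19

open Pool.Agent.Work.MP_91103f_co Pool.TriLev

open Classical

noncomputable section

variable {V : Type} {G : SimpleGraph V} {r : V}

theorem up_trans {a b : ℕ} : ∀ {x y z : V}, Up G r a x y → Up G r b y z → Up G r (a + b) x z := by
  induction a with
  | zero =>
    intro x y z h1 h2
    have h1' : x = y := h1
    subst h1'
    rw [Nat.zero_add]; exact h2
  | succ a ih =>
    intro x y z h1 h2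
    obtain ⟨c, hc, h3⟩ := h1
    have h4 := ih h3 h2
    have : a + 1 + b = (a + b) + 1 := by omega
    rw [this]
    exact ⟨c, hc, h4⟩

theorem up_dist {a : ℕ} : ∀ {x y : V}, Up G r a x y → G.dist r y = G.dist r x + a := by
  induction a with
  | zero =>
    intro x y h1
    have h1' : x = y := h1
    rw [h1']; rfl
  | succ a ih =>
    intro x y h1
    obtain ⟨c, hc, h3⟩ := h1
    have h4 := ih h3
    have h5 := hc.2
    omega

theorem pos_of_ne (hL : LevStr G r) {x : V} (hx : x ≠ r) : 0 < G.dist r x :=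
  hL.conn.pos_dist_of_ne hx.symm

theorem ne_of_pos {x : V} (hx : 0 < G.dist r x) : x ≠ r := by
  rintro rfl
  simp at hx

theorem up_ne (hL : LevStr G r) {a : ℕ} {x y : V} (hx : x ≠ r) (h : Up G r a x y) : y ≠ r := by
  apply ne_of_pos (G := G)
  rw [up_dist h]
  have := pos_of_ne hL hx
  omega

/-- at most `2 ^ j` ancestors -/
theorem anc (hL : LevStr G r) (j : ℕ) : ∀ y : V, ∃ T : Finset V, T.card ≤ 2 ^ j ∧
    ∀ x, Up G r j x y → x ∈ T := by
  induction j with
  | zero =>
    intro y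
    refine ⟨{y}, by simp, ?_⟩
    intro x hx
    have hx' : x = y := hx
    rw [hx']; simp
  | succ j ih =>
    intro y
    obtain ⟨T, hT1, hT2⟩ := ih y
    have hpar : ∀ c : V, ∃ Pc : Finset V, Pc.card ≤ 2 ∧ ∀ x, Ch G r x c → x ∈ Pc := by
      intro c
      by_cases h1 : ∃ a, Ch G r a c
      · obtain ⟨a, ha⟩ := h1
        by_cases h2 : ∃ b, Ch G r b c ∧ b ≠ a
        · obtain ⟨b, hb, hba⟩ := h2
          refine ⟨{a, b}, Finset.card_le_two, ?_⟩
          intro x hx
          rcases hL.par2 c a b x ha hb hx with h | h | h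
          · exact absurd h.symm hba
          · rw [h]; simp
          · rw [h]; simp
        · push Not at h2
          refine ⟨{a}, by simp, ?_⟩
          intro x hx
          rw [h2 x hx]; simp
      · push Not at h1
        exact ⟨∅, by simp, fun x hx => absurd hx (h1 x)⟩
    choose Pc hPc1 hPc2 using hpar
    refine ⟨T.biUnion Pc, ?_, ?_⟩
    · refine le_trans Finset.card_biUnion_le ?_
      refine le_trans (Finset.sum_le_sum fun c _ => hPc1 c) ?_
      rw [Finset.sum_const, smul_eq_mul, pow_succ]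
      exact Nat.mul_le_mul_right _ hT1
    · rintro x ⟨c, hc, h3⟩
      rw [Finset.mem_biUnion]
      exact ⟨c, hT2 c h3, hPc2 c x hc⟩

/-- finitely many descendants -/
theorem fin_up (hL : LevStr G r) (j : ℕ) : ∀ x : V, {y | Up G r j x y}.Finite := by
  induction j with
  | zero =>
    intro x
    apply (Set.finite_singleton x).subset
    intro y hy
    have hy' : x = y := hy
    exact hy'.symm
  | succ j ih =>
    intro x
    apply ((hL.fin x).biUnion fun c _ => ih c).subset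
    rintro y ⟨c, hc, h⟩
    rw [Set.mem_iUnion₂]
    exact ⟨c, hc.1, h⟩

theorem fin_cones (hL : LevStr G r) (x0 : V) (n : ℕ) :
    {y | 7 ≤ (G.neighborSet y).ncard ∧ ∃ j ≤ n, Up G r j x0 y}.Finite := by
  apply ((Finset.range (n + 1)).finite_toSet.biUnion fun j _ => fin_up hL j x0).subset
  rintro y ⟨-, j, hj, h⟩
  rw [Set.mem_iUnion₂]
  exact ⟨j, by simpa using Nat.lt_succ_of_le hj, h⟩

/-- the conclusion of NEW at `x` -/
def NewAt (G : SimpleGraph V) (r : V) (H : ℕ) (x : V) (d : V × ℕ × ℕ) : Prop :=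
  d.2.1 < H ∧ Up G r d.2.1 x d.1 ∧ 1 ≤ d.2.2 ∧ d.2.1 + d.2.2 ≤ H ∧ Even (d.2.1 + d.2.2) ∧
    (7 ≤ (G.neighborSet d.1).ncard ∨ d.1 = x ∧ d.2.1 = 0 ∧ ∃ p, ∀ q, Ch G r q x → q = p) ∧
    Up G r H x ((Phi G r)^[(H - d.2.1 - d.2.2) / 2] ((Bet G r)^[d.2.2] d.1)) ∧
    ∀ x', x' ≠ r → G.dist r x' = G.dist r x →
      (Phi G r)^[H / 2] x' ≠ (Phi G r)^[(H - d.2.1 - d.2.2) / 2] ((Bet G r)^[d.2.2] d.1)

/-- the data of the new vertex -/
def dat (G : SimpleGraph V) (r : V) (H : ℕ) (x : V) : V × ℕ × ℕ :=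
  if h : ∃ d, NewAt G r H x d then h.choose else (x, 0, 0)

/-- the new vertex -/
def nw (G : SimpleGraph V) (r : V) (H : ℕ) (x : V) : V :=
  (Phi G r)^[(H - (dat G r H x).2.1 - (dat G r H x).2.2) / 2]
    ((Bet G r)^[(dat G r H x).2.2] (dat G r H x).1)

theorem dat_spec (hL : LevStr G r) (hNEW : Stmt_NEW) {H : ℕ} (hH : Even H) {x : V} (hx : x ≠ r)
    (hb : ¬ Good G r H x) : NewAt G r H x (dat G r H x) := by
  have h : ∃ d, NewAt G r H x d := by
    obtain ⟨w, j, t, h1, h2, h3, h4, h5, h6, h7, h8⟩ := hNEW hL H x hH hx hb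
    exact ⟨(w, j, t), h1, h2, h3, h4, h5, h6, h7, h8⟩
  unfold dat
  rw [dif_pos h]
  exact h.choose_spec

/-- bad vertices -/
def bd (G : SimpleGraph V) (r : V) (H : ℕ) (x : V) : Prop := ¬ Good G r H x

/-- the sets of the argument -/
def AA (G : SimpleGraph V) (r : V) (H : ℕ) (x0 : V) : ℕ → Finset V
  | 0 => {x0}
  | i + 1 => (AA G r H x0 i).image ((Phi G r)^[H / 2]) ∪
      ((AA G r H x0 i).filter (bd G r H)).image (nw G r H)

theorem up_phi (hL : LevStr G r) (hPHI : Stmt_PHI) (k : ℕ) : ∀ {x : V}, x ≠ r →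
    Up G r (2 * k) x ((Phi G r)^[k] x) := by
  induction k with
  | zero => intro x _; exact rfl
  | succ k ih =>
    intro x hx
    rw [Function.iterate_succ_apply']
    have h1 := ih hx
    have h2 := up_ne hL hx h1
    obtain ⟨c, c', -, h3, -, h4, -⟩ := (hPHI hL).1 _ h2
    have h5 : Up G r 2 ((Phi G r)^[k] x) (Phi G r ((Phi G r)^[k] x)) := ⟨c, h3, _, h4, rfl⟩
    have h6 := up_trans h1 h5
    have : 2 * (k + 1) = 2 * k + 2 := by ring
    rw [this]; exact h6

theorem phi_inj (hL : LevStr G r) (hPHI : Stmt_PHI) (k : ℕ) : ∀ {x x' : V}, x ≠ r → x' ≠ r →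
    (Phi G r)^[k] x = (Phi G r)^[k] x' → x = x' := by
  induction k with
  | zero => intro x x' _ _ h; exact h
  | succ k ih =>
    intro x x' hx hx' h
    rw [Function.iterate_succ_apply', Function.iterate_succ_apply'] at h
    exact ih hx hx' ((hPHI hL).2.1 _ _ (up_ne hL hx (up_phi hL hPHI k hx))
      (up_ne hL hx' (up_phi hL hPHI k hx')) h)

theorem phi_two (hL : LevStr G r) (hPHI : Stmt_PHI) {x y : V} (hx : x ≠ r) (h : Phi G r y = x) :
    ∃ c c', c ≠ c' ∧ Ch G r c x ∧ Ch G r c' x := by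
  by_cases hy : y = r
  · unfold Phi at h
    split_ifs at h with h1
    · obtain ⟨c, c', h2, -, -, h3, h4⟩ := h1.choose_spec
      rw [h] at h3 h4
      exact ⟨c, c', h2, h3, h4⟩
    · exact absurd (h.symm.trans hy) hx
  · obtain ⟨c, c', h2, -, -, h3, h4⟩ := (hPHI hL).1 y hy
    rw [h] at h3 h4
    exact ⟨c, c', h2, h3, h4⟩

theorem up_A (hL : LevStr G r) (hPHI : Stmt_PHI) (hNEW : Stmt_NEW) {H : ℕ} (hH : Even H)
    {x0 : V} (hx0 : x0 ≠ r) (i : ℕ) : ∀ x ∈ AA G r H x0 i, Up G r (i * H) x0 x := by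
  induction i with
  | zero =>
    intro x hx
    have : x = x0 := by simpa [AA] using hx
    rw [this, Nat.zero_mul]; exact rfl
  | succ i ih =>
    intro x hx
    rw [AA, Finset.mem_union, Finset.mem_image, Finset.mem_image] at hx
    have he : (i + 1) * H = i * H + H := by ring
    rw [he]
    rcases hx with ⟨y, hy, rfl⟩ | ⟨y, hy, rfl⟩
    · have h1 := ih y hy
      have h2 := up_phi hL hPHI (H / 2) (up_ne hL hx0 h1)
      have h3 : 2 * (H / 2) = H := by
        obtain ⟨m, hm⟩ := hH; omega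
      rw [h3] at h2
      exact up_trans h1 h2
    · rw [Finset.mem_filter] at hy
      have h1 := ih y hy.1
      exact up_trans h1 (dat_spec hL hNEW hH (up_ne hL hx0 h1) hy.2).2.2.2.2.2.2.1

theorem shape (hL : LevStr G r) (hPHI : Stmt_PHI) (hNEW : Stmt_NEW) {H : ℕ} (hH : Even H)
    {x0 : V} (hx0 : x0 ≠ r) (i : ℕ) : ∀ x ∈ AA G r H x0 i, ∃ (c : V) (j t s : ℕ),
      (c = x0 ∧ j = 0 ∨ 7 ≤ (G.neighborSet c).ncard ∧ Up G r j x0 c) ∧
      j + t + 2 * s = i * H ∧ x = (Phi G r)^[s] ((Bet G r)^[t] c) := by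
  induction i with
  | zero =>
    intro x hx
    have : x = x0 := by simpa [AA] using hx
    exact ⟨x0, 0, 0, 0, Or.inl ⟨rfl, rfl⟩, by simp, this⟩
  | succ i ih =>
    intro x hx
    rw [AA, Finset.mem_union, Finset.mem_image, Finset.mem_image] at hx
    have he : (i + 1) * H = i * H + H := by ring
    rw [he]
    obtain ⟨m, hm⟩ := hH
    rcases hx with ⟨y, hy, rfl⟩ | ⟨y, hy, rfl⟩
    · obtain ⟨c, j, t, s, h1, h2, h3⟩ := ih y hy
      refine ⟨c, j, t, H / 2 + s, h1, by omega, ?_⟩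
      rw [Function.iterate_add_apply, ← h3]
    · rw [Finset.mem_filter] at hy
      have hyup := up_A hL hPHI hNEW ⟨m, hm⟩ hx0 i y hy.1
      have hyr := up_ne hL hx0 hyup
      obtain ⟨h1, h2, h3, h4, h5, h6, -, -⟩ := dat_spec hL hNEW ⟨m, hm⟩ hyr hy.2
      obtain ⟨m', hm'⟩ := h5
      rcases h6 with h6 | ⟨h6, h7, h8⟩
      · refine ⟨(dat G r H y).1, i * H + (dat G r H y).2.1, (dat G r H y).2.2,
          (H - (dat G r H y).2.1 - (dat G r H y).2.2) / 2, Or.inr ⟨h6, up_trans hyup h2⟩, ?_, rfl⟩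
        omega
      · obtain ⟨c, j, t, s, h9, h10, h11⟩ := ih y hy.1
        have hs : s = 0 := by
          by_contra hs
          obtain ⟨s', rfl⟩ := Nat.exists_eq_succ_of_ne_zero hs
          rw [Function.iterate_succ_apply'] at h11
          obtain ⟨a, a', h12, h13, h14⟩ := phi_two hL hPHI hyr h11.symm
          obtain ⟨p, hp⟩ := h8
          exact h12 ((hp a h13).trans (hp a' h14).symm)
        subst hs
        refine ⟨c, j, (dat G r H y).2.2 + t,
          (H - (dat G r H y).2.1 - (dat G r H y).2.2) / 2, h9, ?_, ?_⟩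
        · omega
        · rw [Function.iterate_add_apply]
          have h12 : (Bet G r)^[t] c = y := h11.symm
          rw [h12]
          unfold nw
          rw [h6]

theorem card_A (hL : LevStr G r) (hPHI : Stmt_PHI) (hNEW : Stmt_NEW) {H : ℕ} (hH : Even H)
    {x0 : V} (hx0 : x0 ≠ r) (i : ℕ) :
    (AA G r H x0 i).card ≤ (cones G r x0 (i * H) + 1) * (i * H + 1) := by
  have hfin := fin_cones hL x0 (i * H)
  have hsub : AA G r H x0 i ⊆ ((insert x0 hfin.toFinset) ×ˢ Finset.range (i * H + 1)).image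
      (fun z : V × ℕ => (Phi G r)^[(i * H - (G.dist r z.1 - G.dist r x0) - z.2) / 2]
        ((Bet G r)^[z.2] z.1)) := by
    intro x hx
    obtain ⟨c, j, t, s, h1, h2, h3⟩ := shape hL hPHI hNEW hH hx0 i x hx
    rw [Finset.mem_image]
    have hj : G.dist r c - G.dist r x0 = j := by
      rcases h1 with ⟨rfl, rfl⟩ | ⟨-, h1⟩
      · omega
      · have := up_dist h1; omega
    refine ⟨(c, t), ?_, ?_⟩
    · rw [Finset.mem_product, Finset.mem_insert, Set.Finite.mem_toFinset, Finset.mem_range]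
      refine ⟨?_, by omega⟩
      rcases h1 with ⟨h1, -⟩ | ⟨h1, h4⟩
      · exact Or.inl h1
      · exact Or.inr ⟨h1, j, by omega, h4⟩
    · simp only [hj]
      have : (i * H - j - t) / 2 = s := by omega
      rw [this, h3]
  refine le_trans (Finset.card_le_card hsub) (le_trans Finset.card_image_le ?_)
  rw [Finset.card_product, Finset.card_range]
  apply Nat.mul_le_mul_right
  refine le_trans (Finset.card_insert_le _ _) ?_
  unfold cones
  rw [Set.ncard_eq_toFinset_card _ hfin]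

theorem stmt_ROUTE (hPHI : Stmt_PHI) (hNEW : Stmt_NEW) (hPOT : Stmt_POT) : Stmt_ROUTE := by
  intro V G r hL H x0 hH hH2 hx0 i
  obtain ⟨x, b, hPR, hb⟩ := hPOT (bd G r H) ((Phi G r)^[H / 2]) (nw G r H) (2 ^ H)
    x0 (AA G r H x0) Nat.one_le_two_pow rfl (fun i => rfl)
    (by
      intro i x hx x' hx' h
      exact phi_inj hL hPHI _ (up_ne hL hx0 (up_A hL hPHI hNEW hH hx0 i x hx))
        (up_ne hL hx0 (up_A hL hPHI hNEW hH hx0 i x' hx')) h)
    (by
      intro i x hx hbx x' hx'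
      have h1 := up_A hL hPHI hNEW hH hx0 i x hx
      have h2 := up_A hL hPHI hNEW hH hx0 i x' hx'
      exact (dat_spec hL hNEW hH (up_ne hL hx0 h1) hbx).2.2.2.2.2.2.2 x' (up_ne hL hx0 h2)
        ((up_dist h2).trans (up_dist h1).symm))
    (by
      intro i y
      obtain ⟨T, hT1, hT2⟩ := anc hL H y
      refine le_trans (Finset.card_le_card ?_) hT1
      intro x hx
      rw [Finset.mem_filter, Finset.mem_filter] at hx
      obtain ⟨⟨hx1, hx2⟩, hx3⟩ := hx
      apply hT2
      have h1 := up_A hL hPHI hNEW hH hx0 i x hx1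
      have h2 := (dat_spec hL hNEW hH (up_ne hL hx0 h1) hx2).2.2.2.2.2.2.1
      rw [← hx3]
      exact h2) i
  refine ⟨x, b, ?_, ?_⟩
  · have key : ∀ i x b, PR (bd G r H) ((Phi G r)^[H / 2]) (nw G r H) x0 i x b →
        Rt G r H x0 i x b ∧ Up G r (i * H) x0 x := by
      intro i x b h
      have h3 : 2 * (H / 2) = H := by
        obtain ⟨m, hm⟩ := hH; omega
      have he : ∀ i, (i + 1) * H = i * H + H := fun i => by ring
      induction h with
      | zero => exact ⟨Rt.zero, by rw [Nat.zero_mul]; exact rfl⟩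
      | good i x b _ hg ih =>
        have h2 := up_phi hL hPHI (H / 2) (up_ne hL hx0 ih.2)
        rw [h3] at h2
        exact ⟨Rt.good i x b ih.1 (not_not.1 hg), by rw [he]; exact up_trans ih.2 h2⟩
      | bad1 i x b _ hg ih =>
        have h2 := up_phi hL hPHI (H / 2) (up_ne hL hx0 ih.2)
        rw [h3] at h2
        exact ⟨Rt.bad i x b _ ih.1 h2, by rw [he]; exact up_trans ih.2 h2⟩
      | bad2 i x b _ hg ih =>
        have h2 : Up G r H x (nw G r H x) :=
          (dat_spec hL hNEW hH (up_ne hL hx0 ih.2) hg).2.2.2.2.2.2.1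
        exact ⟨Rt.bad i x b _ ih.1 h2, by rw [he]; exact up_trans ih.2 h2⟩
    exact (key i x b hPR).1
  · refine le_trans hb ?_
    exact Nat.mul_le_mul_right _ (card_A hL hPHI hNEW hH hx0 i)

end

end Pool.TriLev.helper19
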