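import Pool.Agent.Work.MP_91103f_lv.Interface

/-!
# MP_91103f_co: block FAN
-/

namespace Pool.TriLev.helper19

open Pool.Agent.Work.MP_91103f_co Pool.TriLev

open Classical

theorem stmt_FAN : Stmt_FAN := by
  intro V G F hT S v p q hS hp hq hpq hodd
  have hodd0 : Odd (ct S s(v, p)) := (hodd p hp).2 (Or.inl rfl)
  obtain ⟨f, hf⟩ := Finset.card_pos.1 hodd0.pos
  rw [Finset.mem_filter, mem_sym2_mk] at hf
  obtain ⟨b, hb, ht⟩ := hT.exists_third hp.ne (hS f hf.1) hf.2.1 hf.2.2
  have h0 : ph F v p b 0 ∈ S := by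
    have : ph F v p b 0 = f := by rw [hb]; rfl
    rw [this]
    exact hf.1
  obtain ⟨l, hl, hql⟩ := (hT.z_cycle ht).2.2 q hq
  have hl1 : 1 ≤ l := by
    by_contra hcon
    have : l = 0 := by omega
    subst this
    exact hpq (by rw [hql]; rfl)
  have hang := hT.angle ht hl1 hl hS (by
    intro c hc
    rw [hodd c hc, hql])
  have hav : av S v = l := by
    rw [hang.2.1, if_pos h0]
  refine ⟨fun k => z F v p b k, ?_, rfl, ?_, ?_⟩
  · rw [hav]; exact hl1
  · rw [hav]; exact hql.symm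
  · intro i hi
    rw [hav] at hi
    exact ⟨hT.z_face ht i, (hang.2.2.1 i hi).2 h0⟩

end Pool.TriLev.helper19
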